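import Pool.Agent.Helper71.PY.Goals

/-!
# DMD: `D ⊥ (-D)` is hyperbolic
-/

set_option autoImplicit false

namespace Pool.Agent.Helper35.PY

open Pool.Agent.Helper71.PY Matrix

theorem dmd : G_DMD := by
  intro R _ h2 n u hu
  obtain ⟨t, ht⟩ := h2.exists_right_inv
  choose z hz using fun i => (hu i).exists_right_inv
  refine ⟨{ toFun := fun p => (fun i => t * u i * (p.1 i - p.2 i), fun i => p.1 i + p.2 i)
            invFun := fun q => (fun i => t * q.2 i + z i * q.1 i, fun i => t * q.2 i - z i * q.1 i)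
            map_add' := ?_
            map_smul' := ?_
            left_inv := ?_
            right_inv := ?_ }, ?_⟩
  · intro p q
    ext i
    · simp only [Prod.fst_add, Prod.snd_add, Pi.add_apply]; ring
    · simp only [Prod.fst_add, Prod.snd_add, Pi.add_apply]; ring
  · intro c p
    ext i
    · simp only [Prod.smul_fst, Prod.smul_snd, Pi.smul_apply, smul_eq_mul, RingHom.id_apply]; ring
    · simp only [Prod.smul_fst, Prod.smul_snd, Pi.smul_apply, smul_eq_mul, RingHom.id_apply]; ring
  · intro p
    ext i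
    · show t * (p.1 i + p.2 i) + z i * (t * u i * (p.1 i - p.2 i)) = p.1 i
      linear_combination (t * (p.1 i - p.2 i)) * hz i + p.1 i * ht
    · show t * (p.1 i + p.2 i) - z i * (t * u i * (p.1 i - p.2 i)) = p.2 i
      linear_combination (- t * (p.1 i - p.2 i)) * hz i + p.2 i * ht
  · intro q
    ext i
    · show t * u i * ((t * q.2 i + z i * q.1 i) - (t * q.2 i - z i * q.1 i)) = q.1 i
      linear_combination (2 * t * q.1 i) * hz i + q.1 i * ht
    · show (t * q.2 i + z i * q.1 i) + (t * q.2 i - z i * q.1 i) = q.2 i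
      linear_combination q.2 i * ht
  · intro v w
    show ((fun i => t * u i * (v.1 i - v.2 i)) ⬝ᵥ fun i => w.1 i + w.2 i)
        + ((fun i => v.1 i + v.2 i) ⬝ᵥ fun i => t * u i * (w.1 i - w.2 i))
        = v.1 ⬝ᵥ (Matrix.diagonal u) *ᵥ w.1 + v.2 ⬝ᵥ (Matrix.diagonal fun i => - u i) *ᵥ w.2
    simp only [dotProduct, Matrix.mulVec_diagonal]
    rw [← Finset.sum_add_distrib, ← Finset.sum_add_distrib]
    refine Finset.sum_congr rfl fun i _ => ?_
    linear_combination (u i * (v.1 i * w.1 i - v.2 i * w.2 i)) * ht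

end Pool.Agent.Helper35.PY
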