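import Pool.Agent.Helper71.PY.Goals

/-!
# SHU: stably hyperbolic forms
-/

set_option autoImplicit false

namespace Pool.Agent.Helper35.PY

open Pool.Agent.Helper71.PY Matrix

/-- Splitting off the zeroth coordinates. -/
def splitZero (R N : Type) [CommRing R] [AddCommGroup N] [Module R N] (j : ℕ) :
    (N × ((Fin (j + 1) → R) × (Fin (j + 1) → R))) ≃ₗ[R]
      ((N × (R × R)) × ((Fin j → R) × (Fin j → R))) where
  toFun p := ((p.1, (p.2.1 0, p.2.2 0)), (fun i => p.2.1 i.succ, fun i => p.2.2 i.succ))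
  invFun q := (q.1.1, (Fin.cons q.1.2.1 q.2.1, Fin.cons q.1.2.2 q.2.2))
  map_add' p q := rfl
  map_smul' c p := rfl
  left_inv p := by
    refine Prod.ext rfl (Prod.ext ?_ ?_)
    · exact Fin.cons_self_tail p.2.1
    · exact Fin.cons_self_tail p.2.2
  right_inv q := rfl

/-- Dropping a zero module. -/
def dropZero (R N : Type) [CommRing R] [AddCommGroup N] [Module R N] :
    (N × ((Fin 0 → R) × (Fin 0 → R))) ≃ₗ[R] N where
  toFun p := p.1
  invFun n := (n, 0)
  map_add' p q := rfl
  map_smul' c p := rfl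
  left_inv p := Prod.ext rfl (Subsingleton.elim _ _)
  right_inv q := rfl

theorem shu : G_SHU := by
  intro R _ N _ _ B
  constructor
  · rintro ⟨j, r, e, he⟩
    refine ⟨j + 1, r, (splitZero R N j).trans e, fun v w => ?_⟩
    rw [LinearEquiv.trans_apply, LinearEquiv.trans_apply, he]
    simp only [os_apply, Hn_apply, hyp_apply, splitZero, LinearEquiv.coe_mk, LinearMap.coe_mk,
      AddHom.coe_mk, dotProduct, Fin.sum_univ_succ]
    ring
  · rintro ⟨r, e, he⟩
    refine ⟨0, r, (dropZero R N).trans e, fun v w => ?_⟩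
    rw [LinearEquiv.trans_apply, LinearEquiv.trans_apply, he]
    simp [dropZero, dotProduct]

end Pool.Agent.Helper35.PY
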